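import Pool.Agent.CDk.D.ASM4
import Pool.Agent.CDk.D.FAM

/-!
# The critical delay for the decay of oscillations (full answer)

`Adm κ` : `κ` is admissible in the sense of the problem. `KSet` : the largest delays of the explicit
antiperiodic solutions. `SAdm κ` : as `Adm κ`, for the solutions whose consecutive zeros are, from some point on, at
distance at least `τ_m`.
-/

namespace Pool.Agent.Results.MP_8b22d5_an.CriticalDelay

open Pool.Agent.CDk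

theorem result : ∃ P : Par, P.Star ∧ (3.04448 < P.ρ + P.u + P.s ∧ P.ρ + P.u + P.s < 3.04449) ∧
    (∀ κ, Adm κ ↔ 0 < κ ∧ κ ≤ P.ρ + P.u + P.s) ∧ IsGreatest {κ | Adm κ} (P.ρ + P.u + P.s) ∧
    IsLeast KSet (P.ρ + P.u + P.s) ∧ (∀ κ, SAdm κ ↔ 0 < κ ∧ κ ≤ P.ρ + P.u + P.s) := by
  obtain ⟨P, h⟩ := star_exists
  have hK : (3.04448 < P.ρ + P.u + P.s ∧ P.ρ + P.u + P.s < 3.04449) :=
    ⟨by linarith [h.ρ_lo, h.u_lo, h.s_lo], by linarith [h.ρ_hi, h.u_hi, h.s_hi]⟩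
  have hA : ∀ κ, Adm κ ↔ 0 < κ ∧ κ ≤ P.ρ + P.u + P.s := by
    refine fun κ => ⟨fun hs => ⟨hs.1, ?_⟩, fun hs => adm_of_fam h (fam h) hs.1 hs.2⟩
    by_contra hcon
    push Not at hcon
    exact not_adm h.data hcon hs
  refine ⟨P, h, hK, hA, ⟨(hA _).mpr ⟨by linarith, le_rfl⟩, fun κ hκ => ((hA κ).mp hκ).2⟩,
    ⟨⟨15, P.e0, P.ρ, P.u, P.s, h.data, rfl⟩, ?_⟩, fun κ => ⟨fun hs => ⟨hs.1, ?_⟩, fun hs => sadm h hs.1 hs.2⟩⟩
  · rintro k ⟨n, e, ρ, u, s, hd, rfl⟩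
    by_contra hcon
    push Not at hcon
    exact not_adm hd hcon ((hA _).mpr ⟨by linarith, le_rfl⟩)
  · by_contra hcon
    push Not at hcon
    exact not_sadm h hcon hs

end Pool.Agent.Results.MP_8b22d5_an.CriticalDelay
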